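import Pool.Agent.H17.CX.Targets

/-!
# MP_70ba79_ag, THEOREM S: row INE: the restrictions to the component are integral
-/

set_option autoImplicit false

open MvPolynomial SC Pool.Agent.H27.LV
open Pool.Agent.H92.SF Pool.Agent.H3.SF Pool.Agent.H17.SD Pool.Agent.H17.SFG Pool.Agent.H17.CX

namespace Pool.Agent.H77.CNX

theorem pf_INE (hREG : T_REG) : T_INE := by
  classical
  intro k F σ LL _ _ _ _ _ _ _ _ X dd m G g Q ρ W c hS hC hN t j a p b ha hR z hz
  have hpa := hR.2
  have hp := hR.1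
  have hρp : ρ p ≠ 0 := fun h => hp ((hN.ker p).1 h)
  have hGj0 : aeval X (G ^ j) ≠ 0 := by
    rw [map_pow]
    exact pow_ne_zero _ hS.G0
  let bb : Ideal (MvPolynomial σ k) :=
    { carrier := {q | ∃ b', ρ q * z = ρ b'}
      add_mem' := by
        rintro q q' ⟨b', hb'⟩ ⟨b'', hb''⟩
        exact ⟨b' + b'', by rw [map_add, add_mul, hb', hb'', map_add]⟩
      zero_mem' := ⟨0, by rw [map_zero, zero_mul]⟩
      smul_mem' := by
        rintro c q ⟨b', hb'⟩
        exact ⟨c * b', by rw [smul_eq_mul, map_mul, mul_assoc, hb', map_mul]⟩ }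
  have hzero : ∀ s ∈ zeroLocus k bb, s = 0 := by
    intro s hs
    rw [mem_zeroLocus_iff] at hs
    have hs' : ∀ q ∈ bb, eval s q = 0 := by
      intro q hq
      rw [← coe_aeval_eq_eval]
      exact hs q hq
    by_contra hs0
    have hsQ : ∀ f ∈ Q, eval s f = 0 := fun f hf =>
      hs' f ⟨0, by rw [(hN.ker f).2 hf, zero_mul, map_zero]⟩
    obtain ⟨d, e, p', b', -, -, -, hp', hpb⟩ := hREG k F σ X dd m G g Q hS hC t j a p b ha hR s
      hs0 hsQ
    apply hp'
    refine hs' p' ⟨b', ?_⟩
    have h1 : aeval X (p * b' - p' * b) = 0 := by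
      have h2 : aeval X (p * b' - p' * b) * aeval X (G ^ j) = 0 := by
        rw [map_sub, sub_mul, ← map_mul, ← map_mul, sub_eq_zero]
        have h4 : aeval X (p * b' * G ^ j) = aeval X p * aeval X (b' * G ^ j) := by
          rw [← map_mul, mul_assoc]
        have h5 : aeval X (p' * b * G ^ j) = aeval X p' * aeval X (b * G ^ j) := by
          rw [← map_mul, mul_assoc]
        rw [h4, h5, ← hpb, ← hpa, map_mul, map_mul]
        ring
      exact (mul_eq_zero.1 h2).resolve_right hGj0
    have h3 := (hN.ker _).2 (hC.ker _ h1)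
    rw [map_sub, map_mul, map_mul, ← hz, sub_eq_zero] at h3
    apply mul_left_cancel₀ hρp
    rw [h3]
    ring
  have hint : ∀ q, Itg k (fun l => ρ (W l)) (ρ q) := by
    intro q
    induction q using MvPolynomial.induction_on with
    | C r =>
      have h1 : ρ (C r) = algebraMap k LL r := ρ.commutes r
      rw [h1]
      exact (Bb k (fun l => ρ (W l))).algebraMap_mem r
    | add q q' h h' =>
      rw [map_add]
      exact (Bb k (fun l => ρ (W l))).add_mem h h'
    | mul_X q i h =>
      rw [map_mul]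
      exact (Bb k (fun l => ρ (W l))).mul_mem h (hN.int i)
  have hiff : ∀ y : LL, Itg k (fun l => ρ (W l)) y ↔
      Pool.Agent.H62.HIL.Itg k (fun l => ρ (W l)) y := fun y =>
    Pool.Agent.H48.SFG.pf_ITA k LL (Fin 2) (fun l => ρ (W l)) y
  have hrad : ∀ l, ∃ N : ℕ, Pool.Agent.H62.HIL.Itg k (fun l => ρ (W l))
      ((fun l => ρ (W l)) l ^ N * z) := by
    intro l
    have h1 : W l ∈ bb.radical := by
      rw [← vanishingIdeal_zeroLocus_eq_radical (K := k), mem_vanishingIdeal_iff]
      intro s hs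
      rw [hzero s hs]
      have h2 : coeff 0 (W l) = 0 := (hN.lin l).coeff_eq_zero (by simp)
      simpa [constantCoeff_eq] using h2
    obtain ⟨N, q, hq⟩ := h1
    refine ⟨N, ?_⟩
    rw [← hiff]
    have h3 : (fun l => ρ (W l)) l ^ N * z = ρ q := by
      rw [← hq, map_pow]
    rw [h3]
    exact hint q
  obtain ⟨N0, h0⟩ := hrad 0
  obtain ⟨N1, h1⟩ := hrad 1
  rw [hiff]
  exact Pool.Agent.H62.HIL.s2 hN.ind (i := 0) (j := 1) (by decide) N0 N1 h0 h1

end Pool.Agent.H77.CNX
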