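import Pool.Agent.H17.CX.Targets

/-!
# MP_70ba79_ag, THEOREM S: row RGF: representation by forms
-/

set_option autoImplicit false

open MvPolynomial SC Pool.Agent.H27.LV
open Pool.Agent.H92.SF Pool.Agent.H3.SF Pool.Agent.H17.SD Pool.Agent.H17.SFG Pool.Agent.H17.CX

namespace Pool.Agent.H77.CNX

theorem pf_RGF : T_RGF := by
  classical
  intro k F σ _ _ _ X m G g Q hX hG hG0 hC t j a p b ha hR
  obtain ⟨hp, hpa⟩ := hR
  have hGj : (G ^ j).IsHomogeneous (m * j) := hG.pow j
  have hGj0 : aeval X (G ^ j) ≠ 0 := by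
    rw [map_pow]
    exact pow_ne_zero _ hG0
  -- a component of `p` which is not in `Q`
  obtain ⟨d, hd⟩ : ∃ d, homogeneousComponent d p ∉ Q := by
    by_contra hcon
    push Not at hcon
    apply hp
    rw [← sum_homogeneousComponent p]
    exact Q.sum_mem fun i _ => hcon i
  have h1 : aeval X (p * a - b * G ^ j) = 0 := by rw [map_sub, hpa, sub_self]
  have h2 := hX _ h1 (d + t)
  rw [map_sub, hc_mul p a ha d] at h2
  obtain ⟨e, b', hb', hrel, hde⟩ : ∃ (e : ℕ) (b' : MvPolynomial σ k), b'.IsHomogeneous e ∧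
      aeval X (homogeneousComponent d p * a) = aeval X (b' * G ^ j) ∧
      (b' = 0 ∨ d + t = e + j * m) := by
    rcases lt_or_ge (d + t) (m * j) with hlt | hge
    · refine ⟨0, 0, isHomogeneous_zero _ _ _, ?_, Or.inl rfl⟩
      rw [hc_mul' b (G ^ j) hGj (d + t) hlt, sub_zero] at h2
      rw [h2, zero_mul, map_zero]
    · refine ⟨d + t - m * j, homogeneousComponent (d + t - m * j) b,
        homogeneousComponent_isHomogeneous _ _, ?_, Or.inr ?_⟩
      · have h3 := hc_mul b (G ^ j) hGj (d + t - m * j)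
        rw [show d + t - m * j + m * j = d + t by omega] at h3
        rw [h3, map_sub, sub_eq_zero] at h2
        exact h2
      · rw [mul_comm j m]
        omega
  refine ⟨d, e, homogeneousComponent d p, b', homogeneousComponent_isHomogeneous d p, hb',
    ⟨hd, hrel⟩, hde, ?_⟩
  apply mul_right_cancel₀ hGj0
  rw [← map_mul, ← map_mul]
  have h4 : aeval X (p * b' * G ^ j) = aeval X p * aeval X (b' * G ^ j) := by
    rw [← map_mul, mul_assoc]
  have h5 : aeval X (homogeneousComponent d p * b * G ^ j) =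
      aeval X (homogeneousComponent d p) * aeval X (b * G ^ j) := by
    rw [← map_mul, mul_assoc]
  rw [h4, h5, ← hrel, ← hpa, map_mul, map_mul]
  ring

end Pool.Agent.H77.CNX
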